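import Pool.Agent.W_7d29a1_SR.Scale

/-!
STORM Z, step (E): `EE R ≤ (wd R / z) A_R`. A shear of total displacement `z` which costs at most `A` off an event of small
probability, for every end point of a cone of a few widths, bounds the unit by `A wd R / z` (repeat the step `wd R / z` times; the
law of the environment is invariant, so only the means are compared). (helper3)
-/

namespace Pool.Agent.W_7d29a1_Z3

open MeasureTheory ProbabilityTheory Filter Topology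
open Pool.Agent.W_7d29a1_F Pool.Agent.W_7d29a1_h4g Pool.Agent.W_7d29a1_G Pool.Agent.W_7d29a1_L Pool.Agent.W_7d29a1_SR

noncomputable section

/-- The environment with the row `t` shifted by `s t`. -/
def shr (s : ℤ → ℤ) (η : Env) : Env := fun p => η (p.1, p.2 - s p.1)

variable {μ : Measure ℝ}

theorem shr_zero (η : Env) : shr 0 η = η := by
  funext p
  simp [shr]

theorem shr_shr (s t : ℤ → ℤ) (η : Env) : shr s (shr t η) = shr (s + t) η := by
  funext p
  simp only [shr, Pi.add_apply]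
  congr 2
  ring

theorem mp_shr [IsProbabilityMeasure μ] (s : ℤ → ℤ) : MeasurePreserving (shr s) (law μ) (law μ) := by
  refine mp_reindex (μ := μ) (fun p : Pt => ((p.1, p.2 - s p.1) : Pt)) ?_
  rintro ⟨i, y⟩ ⟨j, z⟩ h
  simp only [Prod.mk.injEq] at h
  obtain ⟨h1, h2⟩ := h
  subst h1
  exact Prod.ext rfl (by simpa using h2)

/-- The crude deterministic bound of the cost. -/
theorem abs_X_le (η : Env) {n : ℕ} {y : ℤ} (h0 : 0 ≤ y) (h1 : y ≤ n) :
    |X μ 0 η 0 n y| ≤ n * (|lam μ 0| + Real.log 2) +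
      ∑ p ∈ Finset.Icc (0 : ℤ) n ×ˢ Finset.Icc (0 : ℤ) n, |η p| := by
  have hl := Zr_ge η 0 h0 h1
  have hu := Zr_le Set.univ η 0 n y
  simp only [Prod.fst_zero, Prod.snd_zero, zero_add] at hl hu
  obtain ⟨S, hS⟩ : ∃ S : ℝ, S = ∑ p ∈ Finset.Icc (0 : ℤ) n ×ˢ Finset.Icc (0 : ℤ) n, |η p| := ⟨_, rfl⟩
  rw [← hS] at hl hu ⊢
  have hZ : 0 < Zr Set.univ η 0 n y := lt_of_lt_of_le (Real.exp_pos _) hl
  have e1 : X μ 0 η 0 n y = n * lam μ 0 - Real.log (Zr Set.univ η 0 n y) := by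
    unfold X W WR
    rw [Real.log_mul (Real.exp_pos _).ne' hZ.ne', Real.log_exp]
    ring
  have h2 := Real.log_le_log (Real.exp_pos _) hl
  have h3 := Real.log_le_log hZ hu
  rw [Real.log_exp] at h2
  rw [Real.log_mul (by positivity) (Real.exp_pos _).ne', Real.log_exp, Real.log_pow] at h3
  have hn : (0 : ℝ) ≤ n := Nat.cast_nonneg n
  have hl2 : 0 < Real.log 2 := Real.log_pos (by norm_num)
  have h4 := neg_abs_le (lam μ 0)
  have h5 := le_abs_self (lam μ 0)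
  rw [e1, abs_le]
  constructor
  · nlinarith
  · nlinarith

theorem sum_abs_sq_le [IsProbabilityMeasure μ] (hμ : Pool.Agent.W_7d29a1_h47.EM μ) :
    ∃ m2 : ℝ, 0 ≤ m2 ∧ ∀ Q : Finset Pt, ∫ η, (∑ p ∈ Q, |η p|) ^ 2 ∂(law μ) ≤ (Q.card : ℝ) ^ 2 * m2 := by
  have hS : ∀ Q : Finset Pt, Sub fun η : Env => ∑ p ∈ Q, |η p| := fun Q => Sub.sum Q fun p _ => (Sub.coord p).abs
  refine ⟨∫ η, (η (0, 0)) ^ 2 ∂(law μ), integral_nonneg fun _ => sq_nonneg _, fun Q => ?_⟩
  have hi : ∀ p : Pt, Integrable (fun η : Env => (η p) ^ 2) (law μ) := fun p => (Sub.coord p).sq_integrable hμ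
  have e1 : ∀ p : Pt, ∫ η, (η p) ^ 2 ∂(law μ) = ∫ η, (η (0, 0)) ^ 2 ∂(law μ) := by
    intro p
    have h := (mp_sh (μ := μ) p).map_eq
    conv_rhs => rw [← h]
    rw [integral_map (mp_sh (μ := μ) p).aemeasurable]
    · refine integral_congr_ae (Eventually.of_forall fun η => ?_)
      show η p ^ 2 = η ((0, 0) + p) ^ 2
      have : ((0 : ℤ), (0 : ℤ)) + p = p := zero_add p
      rw [this]
    · exact ((measurable_pi_apply (0, 0)).pow_const 2).aestronglyMeasurable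
  calc ∫ η, (∑ p ∈ Q, |η p|) ^ 2 ∂(law μ)
      ≤ ∫ η, (Q.card : ℝ) * ∑ p ∈ Q, (η p) ^ 2 ∂(law μ) := by
        refine integral_mono ((hS Q).sq_integrable hμ) ((integrable_finsetSum _ fun p _ => hi p).const_mul _) fun η => ?_
        have h := sq_sum_le_card_mul_sum_sq (s := Q) (f := fun p => |η p|)
        simpa [sq_abs] using h
    _ = (Q.card : ℝ) ^ 2 * ∫ η, (η (0, 0)) ^ 2 ∂(law μ) := by
        rw [integral_const_mul, integral_finsetSum _ fun p _ => hi p]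
        simp only [e1, Finset.sum_const, nsmul_eq_mul]
        ring

/-- The second moment of the cost, crude. -/
theorem X_sq_le [IsProbabilityMeasure μ] (hμ : Pool.Agent.W_7d29a1_h47.EM μ) :
    ∃ K : ℝ, 0 < K ∧ ∀ (n : ℕ) (y : ℤ), 0 ≤ y → y ≤ n → ∫ η, (X μ 0 η 0 n y) ^ 2 ∂(law μ) ≤ K * ((n : ℝ) + 1) ^ 4 := by
  obtain ⟨m2, hm2, hQ⟩ := sum_abs_sq_le (μ := μ) hμ
  obtain ⟨κ, hκ⟩ : ∃ κ, κ = |lam μ 0| + Real.log 2 := ⟨_, rfl⟩
  have hκ0 : 0 < κ := by
    rw [hκ]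
    have := Real.log_pos (show (1 : ℝ) < 2 by norm_num)
    positivity
  refine ⟨2 * κ ^ 2 + 2 * m2, by positivity, fun n y h0 h1 => ?_⟩
  obtain ⟨Q, hQd⟩ : ∃ Q : Finset Pt, Q = Finset.Icc (0 : ℤ) n ×ˢ Finset.Icc (0 : ℤ) n := ⟨_, rfl⟩
  have hc : (Q.card : ℝ) = ((n : ℝ) + 1) ^ 2 := by
    rw [hQd, Finset.card_product, Int.card_Icc]
    push_cast
    have : ((n : ℤ) + 1 - 0).toNat = n + 1 := by omega
    rw [this]
    push_cast
    ring
  have hS : Sub fun η : Env => ∑ p ∈ Q, |η p| := Sub.sum Q fun p _ => (Sub.coord p).abs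
  have hn1 : (1 : ℝ) ≤ (n : ℝ) + 1 := by
    have : (0 : ℝ) ≤ n := Nat.cast_nonneg n
    linarith
  calc ∫ η, (X μ 0 η 0 n y) ^ 2 ∂(law μ)
      ≤ ∫ η, (2 * (n * κ) ^ 2 + 2 * (∑ p ∈ Q, |η p|) ^ 2) ∂(law μ) := by
        refine integral_mono ((Sub_X 0 h0 h1).sq_integrable hμ)
          ((integrable_const _).add (((hS.sq_integrable hμ)).const_mul 2)) fun η => ?_
        have h2 := abs_X_le (μ := μ) η h0 h1
        rw [← hκ, ← hQd] at h2
        have h3 : (X μ 0 η 0 n y) ^ 2 ≤ (n * κ + ∑ p ∈ Q, |η p|) ^ 2 := by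
          rw [← sq_abs (X μ 0 η 0 n y)]
          exact pow_le_pow_left₀ (abs_nonneg _) h2 2
        show (X μ 0 η 0 n y) ^ 2 ≤ 2 * (n * κ) ^ 2 + 2 * (∑ p ∈ Q, |η p|) ^ 2
        nlinarith [sq_nonneg (n * κ - ∑ p ∈ Q, |η p|)]
    _ = 2 * (n * κ) ^ 2 + 2 * ∫ η, (∑ p ∈ Q, |η p|) ^ 2 ∂(law μ) := by
        have g5 : ∫ η, 2 * (∑ p ∈ Q, |η p|) ^ 2 ∂(law μ) = 2 * ∫ η, (∑ p ∈ Q, |η p|) ^ 2 ∂(law μ) := integral_const_mul _ _
        rw [integral_add (integrable_const _) ((hS.sq_integrable hμ).const_mul 2), g5]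
        simp
    _ ≤ 2 * (n * κ) ^ 2 + 2 * (((n : ℝ) + 1) ^ 4 * m2) := by
        have := hQ Q
        rw [hc] at this
        have e2 : (((n : ℝ) + 1) ^ 2) ^ 2 = ((n : ℝ) + 1) ^ 4 := by ring
        rw [e2] at this
        linarith
    _ ≤ (2 * κ ^ 2 + 2 * m2) * ((n : ℝ) + 1) ^ 4 := by
        have h4 : (n : ℝ) ^ 2 ≤ ((n : ℝ) + 1) ^ 4 := by
          have h5 : (n : ℝ) ^ 2 ≤ ((n : ℝ) + 1) ^ 2 := pow_le_pow_left₀ (Nat.cast_nonneg n) (by linarith) 2
          have h6 : ((n : ℝ) + 1) ^ 2 ≤ ((n : ℝ) + 1) ^ 4 := pow_le_pow_right₀ hn1 (by norm_num)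
          linarith
        nlinarith [mul_le_mul_of_nonneg_left h4 (sq_nonneg κ)]

/-- A bound off a small event gives a bound of the mean. -/
theorem int_le_of_bad {Ω : Type*} [MeasurableSpace Ω] {P : Measure Ω} [IsProbabilityMeasure P] {D : Ω → ℝ} (hD : Measurable D)
    (hi : Integrable D P) (hi2 : Integrable (fun ω => D ω ^ 2) P) {A δ M : ℝ} (hA : 0 ≤ A) (hM : 0 ≤ M)
    (h2 : ∫ ω, D ω ^ 2 ∂P ≤ M ^ 2) (hb : P.real {ω | A < D ω} ≤ δ) : ∫ ω, D ω ∂P ≤ A + M * Real.sqrt δ := by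
  have hms : MeasurableSet {ω | A < D ω} := measurableSet_lt measurable_const hD
  have hind : Integrable ({ω | A < D ω}.indicator (fun _ => (1 : ℝ))) P := (integrable_const 1).indicator hms
  have hδ : 0 ≤ δ := measureReal_nonneg.trans hb
  -- for every `t > 0`: `D ≤ A + t D ^ 2 / 2 + 1_bad / (2 t)`
  have key : ∀ t : ℝ, 0 < t → ∫ ω, D ω ∂P ≤ A + (t * M ^ 2 / 2 + δ / (2 * t)) := by
    intro t ht
    calc ∫ ω, D ω ∂P ≤ ∫ ω, (A + (t / 2 * D ω ^ 2 + 1 / (2 * t) * ({ω | A < D ω}.indicator (fun _ => (1 : ℝ)) ω))) ∂P := by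
          refine integral_mono hi ((integrable_const A).add ((hi2.const_mul _).add (hind.const_mul _))) fun ω => ?_
          show D ω ≤ A + (t / 2 * D ω ^ 2 + 1 / (2 * t) * ({ω | A < D ω}.indicator (fun _ => (1 : ℝ)) ω))
          by_cases hω : A < D ω
          · rw [Set.indicator_of_mem (show ω ∈ {ω | A < D ω} from hω)]
            have h3 : D ω ≤ t / 2 * D ω ^ 2 + 1 / (2 * t) * 1 := by
              have h4 : 0 ≤ (t * D ω - 1) ^ 2 := sq_nonneg _
              have h5 : t / 2 * D ω ^ 2 + 1 / (2 * t) * 1 - D ω = (t * D ω - 1) ^ 2 / (2 * t) := by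
                field_simp
                ring
              have h6 : 0 ≤ (t * D ω - 1) ^ 2 / (2 * t) := by positivity
              linarith
            linarith
          · rw [Set.indicator_of_notMem (show ω ∉ {ω | A < D ω} from hω)]
            have : 0 ≤ t / 2 * D ω ^ 2 := by positivity
            linarith [not_lt.1 hω]
      _ = A + (t / 2 * ∫ ω, D ω ^ 2 ∂P + 1 / (2 * t) * P.real {ω | A < D ω}) := by
          have g1 : Integrable (fun ω => t / 2 * D ω ^ 2) P := hi2.const_mul _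
          have g2 : Integrable (fun ω => 1 / (2 * t) * ({ω | A < D ω}.indicator (fun _ => (1 : ℝ)) ω)) P := hind.const_mul _
          have g3 : Integrable (fun ω => t / 2 * D ω ^ 2 + 1 / (2 * t) * ({ω | A < D ω}.indicator (fun _ => (1 : ℝ)) ω)) P :=
            g1.add g2
          have g4 : ∫ ω, ({ω | A < D ω}.indicator (fun _ => (1 : ℝ)) ω) ∂P = P.real {ω | A < D ω} := by
            rw [integral_indicator_const _ hms, smul_eq_mul, mul_one]
          have g5 : ∫ _ω : Ω, A ∂P = A := by rw [integral_const]; simp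
          rw [integral_add (integrable_const A) g3, integral_add g1 g2, integral_const_mul, integral_const_mul, g4, g5]
      _ ≤ A + (t * M ^ 2 / 2 + δ / (2 * t)) := by
          have h3 : t / 2 * ∫ ω, D ω ^ 2 ∂P ≤ t / 2 * M ^ 2 := mul_le_mul_of_nonneg_left h2 (by positivity)
          have h4 : 1 / (2 * t) * P.real {ω | A < D ω} ≤ 1 / (2 * t) * δ := mul_le_mul_of_nonneg_left hb (by positivity)
          have e1 : t / 2 * M ^ 2 = t * M ^ 2 / 2 := by ring
          have e2 : 1 / (2 * t) * δ = δ / (2 * t) := by ring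
          linarith
  refine le_of_forall_pos_le_add fun ε hε => ?_
  -- choose `t = (√δ + ε') / (M + ε')`
  rcases hM.eq_or_lt with h0 | h0
  · have h3 := key (δ / ε + 1) (by positivity)
    rw [← h0] at h3 ⊢
    have h4 : δ / (2 * (δ / ε + 1)) ≤ ε := by
      rw [div_le_iff₀ (by positivity)]
      have h5 : ε * (2 * (δ / ε + 1)) = 2 * δ + 2 * ε := by
        field_simp
      rw [h5]
      linarith
    simp only [ne_eq, OfNat.ofNat_ne_zero, not_false_eq_true, zero_pow, mul_zero, zero_div, zero_add, zero_mul, add_zero] at h3 ⊢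
    linarith
  · rcases hδ.eq_or_lt with hd | hd
    · have h3 := key (ε / M ^ 2) (by positivity)
      rw [← hd] at h3 ⊢
      rw [Real.sqrt_zero, mul_zero, add_zero]
      have h4 : ε / M ^ 2 * M ^ 2 / 2 = ε / 2 := by
        field_simp
      rw [h4, zero_div, add_zero] at h3
      linarith
    · have hs : 0 < Real.sqrt δ := Real.sqrt_pos.2 hd
      have h3 := key (Real.sqrt δ / M) (by positivity)
      have h4 : Real.sqrt δ / M * M ^ 2 / 2 = M * Real.sqrt δ / 2 := by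
        field_simp
      have h5 : δ / (2 * (Real.sqrt δ / M)) = M * Real.sqrt δ / 2 := by
        have h6 : δ = Real.sqrt δ * Real.sqrt δ := (Real.mul_self_sqrt hd.le).symm
        rw [div_eq_iff (by positivity)]
        nth_rewrite 1 [h6]
        field_simp
      rw [h4, h5] at h3
      linarith

/-- One step of the shear, in mean. -/
theorem e_step [IsProbabilityMeasure μ] (hμ : Pool.Agent.W_7d29a1_h47.EM μ) :
    ∃ K : ℝ, 0 < K ∧ ∀ (n : ℕ) (s : ℤ → ℤ) (y z : ℤ) (A δ : ℝ), 0 ≤ y → y ≤ n → 0 ≤ y + z → y + z ≤ n → 0 ≤ A →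
      (law μ).real {η | A < X μ 0 (shr s η) 0 n (y + z) - X μ 0 η 0 n y} ≤ δ →
      e μ 0 n (y + z) ≤ e μ 0 n y + (A + K * ((n : ℝ) + 1) ^ 2 * Real.sqrt δ) := by
  obtain ⟨K, hK, hX⟩ := X_sq_le (μ := μ) hμ
  refine ⟨2 * Real.sqrt K, by positivity, fun n s y z A δ h0 h1 h2 h3 hA hb => ?_⟩
  have hS1 : Sub fun η => X μ 0 η 0 n (y + z) := Sub_X 0 h2 h3
  have hS2 : Sub fun η => X μ 0 η 0 n y := Sub_X 0 h0 h1
  have hmp := mp_shr (μ := μ) s
  have hi1 : Integrable (fun η => X μ 0 (shr s η) 0 n (y + z)) (law μ) :=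
    (hmp.integrable_comp hS1.1.aestronglyMeasurable).2 (hS1.integrable hμ)
  have hi1s : Integrable (fun η => (X μ 0 (shr s η) 0 n (y + z)) ^ 2) (law μ) :=
    (hmp.integrable_comp (hS1.1.pow_const 2).aestronglyMeasurable).2 (hS1.sq_integrable hμ)
  have hm1 : Measurable fun η => X μ 0 (shr s η) 0 n (y + z) := hS1.1.comp hmp.measurable
  have e1 : ∫ η, X μ 0 (shr s η) 0 n (y + z) ∂(law μ) = e μ 0 n (y + z) := by
    unfold e
    conv_rhs => rw [← hmp.map_eq]
    rw [integral_map hmp.aemeasurable hS1.1.aestronglyMeasurable]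
  have e2 : ∫ η, (X μ 0 (shr s η) 0 n (y + z)) ^ 2 ∂(law μ) = ∫ η, (X μ 0 η 0 n (y + z)) ^ 2 ∂(law μ) := by
    conv_rhs => rw [← hmp.map_eq]
    rw [integral_map hmp.aemeasurable (hS1.1.pow_const 2).aestronglyMeasurable]
  have hDm : Measurable fun η => X μ 0 (shr s η) 0 n (y + z) - X μ 0 η 0 n y := hm1.sub hS2.1
  have hD2i : Integrable (fun η => (X μ 0 (shr s η) 0 n (y + z) - X μ 0 η 0 n y) ^ 2) (law μ) := by
    refine ((hi1s.const_mul 2).add ((hS2.sq_integrable hμ).const_mul 2)).mono' (hDm.pow_const 2).aestronglyMeasurable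
      (Eventually.of_forall fun η => ?_)
    rw [Real.norm_eq_abs, abs_of_nonneg (sq_nonneg _)]
    show (X μ 0 (shr s η) 0 n (y + z) - X μ 0 η 0 n y) ^ 2 ≤ 2 * (X μ 0 (shr s η) 0 n (y + z)) ^ 2 + 2 * (X μ 0 η 0 n y) ^ 2
    nlinarith [sq_nonneg (X μ 0 (shr s η) 0 n (y + z) + X μ 0 η 0 n y)]
  have hM : ∫ η, (X μ 0 (shr s η) 0 n (y + z) - X μ 0 η 0 n y) ^ 2 ∂(law μ) ≤ (2 * Real.sqrt K * ((n : ℝ) + 1) ^ 2) ^ 2 := by
    calc ∫ η, (X μ 0 (shr s η) 0 n (y + z) - X μ 0 η 0 n y) ^ 2 ∂(law μ)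
        ≤ ∫ η, (2 * (X μ 0 (shr s η) 0 n (y + z)) ^ 2 + 2 * (X μ 0 η 0 n y) ^ 2) ∂(law μ) := by
          refine integral_mono hD2i ((hi1s.const_mul 2).add ((hS2.sq_integrable hμ).const_mul 2)) fun η => ?_
          show (X μ 0 (shr s η) 0 n (y + z) - X μ 0 η 0 n y) ^ 2 ≤
            2 * (X μ 0 (shr s η) 0 n (y + z)) ^ 2 + 2 * (X μ 0 η 0 n y) ^ 2
          nlinarith [sq_nonneg (X μ 0 (shr s η) 0 n (y + z) + X μ 0 η 0 n y)]
      _ = 2 * ∫ η, (X μ 0 η 0 n (y + z)) ^ 2 ∂(law μ) + 2 * ∫ η, (X μ 0 η 0 n y) ^ 2 ∂(law μ) := by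
          rw [integral_add (hi1s.const_mul 2) ((hS2.sq_integrable hμ).const_mul 2), integral_const_mul, integral_const_mul, e2]
      _ ≤ 2 * (K * ((n : ℝ) + 1) ^ 4) + 2 * (K * ((n : ℝ) + 1) ^ 4) := by
          have g1 := hX n (y + z) h2 h3
          have g2 := hX n y h0 h1
          linarith
      _ = (2 * Real.sqrt K * ((n : ℝ) + 1) ^ 2) ^ 2 := by
          have : Real.sqrt K ^ 2 = K := Real.sq_sqrt hK.le
          calc 2 * (K * ((n : ℝ) + 1) ^ 4) + 2 * (K * ((n : ℝ) + 1) ^ 4) = 4 * K * ((n : ℝ) + 1) ^ 4 := by ring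
            _ = 4 * Real.sqrt K ^ 2 * ((n : ℝ) + 1) ^ 4 := by rw [this]
            _ = (2 * Real.sqrt K * ((n : ℝ) + 1) ^ 2) ^ 2 := by ring
  have h4 := int_le_of_bad hDm (hi1.sub (hS2.integrable hμ)) hD2i hA (by positivity) hM hb
  rw [integral_sub hi1 (hS2.integrable hμ), e1] at h4
  have e3 : ∫ η, X μ 0 η 0 n y ∂(law μ) = e μ 0 n y := rfl
  rw [e3] at h4
  linarith

/-- `k` steps of the shear, in mean. -/
theorem e_steps [IsProbabilityMeasure μ] (hμ : Pool.Agent.W_7d29a1_h47.EM μ) :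
    ∃ K : ℝ, 0 < K ∧ ∀ (n : ℕ) (s : ℤ → ℤ) (y : ℤ) (z : ℕ) (A δ : ℝ) (k : ℕ), 0 ≤ y → y + k * z ≤ n → 0 ≤ A →
      (∀ i : ℕ, i < k → (law μ).real {η | A < X μ 0 (shr s η) 0 n (y + i * z + z) - X μ 0 η 0 n (y + i * z)} ≤ δ) →
      e μ 0 n (y + k * z) ≤ e μ 0 n y + k * (A + K * ((n : ℝ) + 1) ^ 2 * Real.sqrt δ) := by
  obtain ⟨K, hK, hst⟩ := e_step (μ := μ) hμ
  refine ⟨K, hK, fun n s y z A δ k => ?_⟩
  induction k with
  | zero => intro h0 h1 hA hb; simp
  | succ k ih =>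
    intro h0 h1 hA hb
    have hz : (0 : ℤ) ≤ (k : ℤ) * z := by positivity
    have hz2 : (0 : ℤ) ≤ (z : ℤ) := by positivity
    push_cast at h1
    have h1' : y + (k : ℤ) * z ≤ n := by nlinarith
    have h2 := ih h0 h1' hA fun i hi => hb i (by omega)
    have h3 := hst n s (y + k * z) z A δ (by omega) h1' (by omega) (by linarith) hA (hb k (by omega))
    have e1 : y + ((k + 1 : ℕ) : ℤ) * z = y + k * z + z := by push_cast; ring
    rw [e1]
    push_cast
    linarith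

/-- **(E)**: a shear of total displacement `z` costs, in the cone of a few widths, at least `z EE / wd`. -/
theorem er_ineq [IsProbabilityMeasure μ] {c C : ℝ} {n₀ : ℕ} (h : In μ c C n₀) :
    ∃ (C₁ K : ℝ) (n₁ : ℕ), 1 ≤ C₁ ∧ 0 < K ∧ ∀ (R : ℕ) (s : ℤ → ℤ) (z : ℕ) (A δ : ℝ), n₁ ≤ R → 1 ≤ z → (z : ℝ) ≤ wd μ R → 0 ≤ A →
      (∀ y : ℤ, |(y : ℝ) - R / 2| ≤ C₁ * wd μ R → |((y + z : ℤ) : ℝ) - R / 2| ≤ C₁ * wd μ R → 0 ≤ y → y + z ≤ R →
        (law μ).real {η | A < X μ 0 (shr s η) 0 R (y + z) - X μ 0 η 0 R y} ≤ δ) →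
      EE μ R ≤ C₁ * (wd μ R / z) * (A + K * ((R : ℝ) + 1) ^ 2 * Real.sqrt δ) := by
  obtain ⟨K, hK, hst⟩ := e_steps (μ := μ) h.em
  have hC1 := h.C1
  have hv0 := vA_tendsto (μ := μ) h.em h.nd (A := 1) zero_le_one
  have hv : ∀ᶠ n : ℕ in atTop, vA μ 1 n < 1 / (4 * (C + 4)) := hv0.eventually (eventually_lt_nhds (by positivity))
  have hw : ∀ᶠ n : ℕ in atTop, 4 ≤ wd μ n := (wd_tendsto h).eventually_ge_atTop 4
  have hJ := vA_eq (μ := μ) h.em h.nd (A := C + 1) (by linarith)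
  obtain ⟨n₁, hn₁⟩ := eventually_atTop.1 ((hv.and hw).and (hJ.and (eventually_ge_atTop (max n₀ 1))))
  refine ⟨C + 4, K, n₁, by linarith, hK, fun R s z A δ hR hz hzw hA hb => ?_⟩
  obtain ⟨⟨hv1, hw1⟩, hJ1, hRm⟩ := hn₁ R hR
  have hR0 : n₀ ≤ R := (le_max_left _ _).trans hRm
  have hR1 : 1 ≤ R := (le_max_right _ _).trans hRm
  have hRR : (0 : ℝ) < R := by exact_mod_cast hR1
  have hzR : (0 : ℝ) < z := by exact_mod_cast hz
  have hEE := one_le_EE (μ := μ) R
  have hwR : (C + 4) * wd μ R ≤ R / 4 := by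
    unfold wd
    rw [lt_div_iff₀ (by positivity)] at hv1
    nlinarith
  -- the start and the number of steps
  obtain ⟨y0, hy0⟩ : ∃ y0 : ℤ, y0 = (R : ℤ) / 2 := ⟨_, rfl⟩
  have hy1 : |(y0 : ℝ) - R / 2| ≤ 1 / 2 := by
    have h1 : 2 * y0 ≤ R := by omega
    have h2 : (R : ℤ) ≤ 2 * y0 + 1 := by omega
    have h1' : (2 : ℝ) * y0 ≤ R := by exact_mod_cast h1
    have h2' : (R : ℝ) ≤ 2 * y0 + 1 := by exact_mod_cast h2
    rw [abs_le]
    constructor <;> linarith
  obtain ⟨k, hk⟩ : ∃ k : ℕ, k = ⌈((C + 1) * wd μ R + 1) / z⌉₊ := ⟨_, rfl⟩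
  have hk1 : (C + 1) * wd μ R + 1 ≤ k * z := by
    have := Nat.le_ceil (((C + 1) * wd μ R + 1) / z)
    rw [← hk, div_le_iff₀ hzR] at this
    exact this
  have hk2 : (k : ℝ) < ((C + 1) * wd μ R + 1) / z + 1 := by
    rw [hk]
    exact Nat.ceil_lt_add_one (by positivity)
  have hk3 : (k : ℝ) * z < (C + 1) * wd μ R + 1 + z := by
    have := mul_lt_mul_of_pos_right hk2 hzR
    rw [add_mul, div_mul_cancel₀ _ hzR.ne', one_mul] at this
    exact this
  obtain ⟨hya, hyb⟩ := abs_le.1 hy1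
  have hy00 : 0 ≤ y0 := by omega
  -- the chain stays in the cone
  have hcone : ∀ x : ℝ, 0 ≤ x → x ≤ k * z → |(y0 : ℝ) + x - R / 2| ≤ (C + 4) * wd μ R := by
    intro x hx0 hx1
    rw [abs_le]
    constructor
    · nlinarith
    · nlinarith
  have hyf : y0 + (k : ℤ) * z ≤ R := by
    have h1 := (abs_le.1 (hcone (k * z) (by positivity) le_rfl)).2
    have h2 : (y0 : ℝ) + k * z ≤ R := by linarith
    exact_mod_cast h2
  have hstep := hst R s y0 z A δ k hy00 hyf hA (by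
    intro i hi
    have hik : (i : ℝ) + 1 ≤ k := by exact_mod_cast hi
    have hi0 : (0 : ℝ) ≤ i := Nat.cast_nonneg i
    refine hb _ ?_ ?_ ?_ ?_
    · push_cast
      exact hcone (i * z) (by positivity) (mul_le_mul_of_nonneg_right (by linarith) hzR.le)
    · push_cast
      have := hcone (i * z + z) (by positivity) (by nlinarith)
      rwa [← add_assoc] at this
    · positivity
    · have h1 : (y0 : ℤ) + i * z + z ≤ y0 + k * z := by
        have h2 : ((i : ℤ) + 1) * z ≤ k * z := mul_le_mul_of_nonneg_right (by exact_mod_cast hi) (by positivity)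
        linarith
      exact h1.trans hyf)
  -- the centre
  have hcen : e μ 0 R y0 ≤ C * EE μ R := by
    have h1 := h.inn R hR0 R y0 (by omega) hy00 (by omega) (by
      have : 0 ≤ c * vA μ 1 R * R := by
        have := vA_nonneg (μ := μ) h.em zero_le_one R
        have := h.c0
        positivity
      linarith)
    refine le_trans ?_ h1
    unfold e ep
    refine integral_mono ((Sub_X 0 hy00 (by omega)).integrable h.em)
      (((Sub_X 0 hy00 (by omega)).max (Sub.const 0)).integrable h.em) fun η => le_max_left _ _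
  -- the far end
  have hfar : (C + 1) * EE μ R ≤ e μ 0 R (y0 + k * z) := by
    have h1 := J_le_e (μ := μ) h.em (n := R) (y := y0 + k * z) hR1 (by positivity) hyf
    refine le_trans ?_ h1
    rw [← hJ1]
    refine mul_le_mul_of_nonneg_left ?_ hRR.le
    have h2 := vA_scale (μ := μ) h.em (A := 1) (B := C + 1) one_pos (by linarith) R
    rw [div_one] at h2
    refine J_mono' h.em (vA_nonneg h.em (by linarith) R) (h2.trans ?_) ?_
    · rw [le_div_iff₀ hRR]
      push_cast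
      have e1 : (C + 1) * vA μ 1 R * R = (C + 1) * wd μ R := by
        unfold wd
        ring
      rw [e1]
      linarith
    · rw [div_le_iff₀ hRR]
      have h3 : ((y0 + k * z : ℤ) : ℝ) ≤ R := by exact_mod_cast hyf
      linarith
  have hB : 0 ≤ A + K * ((R : ℝ) + 1) ^ 2 * Real.sqrt δ := by positivity
  have hkk : (k : ℝ) ≤ (C + 4) * (wd μ R / z) := by
    have h1 : (1 : ℝ) ≤ wd μ R / z := by rwa [one_le_div hzR]
    have h2 : ((C + 1) * wd μ R + 1) / z ≤ (C + 2) * (wd μ R / z) := by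
      rw [← mul_div_assoc]
      refine div_le_div_of_nonneg_right ?_ hzR.le
      nlinarith
    nlinarith
  calc EE μ R ≤ k * (A + K * ((R : ℝ) + 1) ^ 2 * Real.sqrt δ) := by linarith
    _ ≤ (C + 4) * (wd μ R / z) * (A + K * ((R : ℝ) + 1) ^ 2 * Real.sqrt δ) := mul_le_mul_of_nonneg_right hkk hB

/-- **(E)**, every `z ≤ R - R / 2`: a shear of total displacement `z` costs, in the cone of a few widths (condition only on the start
`y`), at least `EE / (wd / z + 1)`. -/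
theorem er_ineq2 [IsProbabilityMeasure μ] {c C : ℝ} {n₀ : ℕ} (h : In μ c C n₀) :
    ∃ (C₁ K : ℝ) (n₁ : ℕ), 1 ≤ C₁ ∧ 0 < K ∧ ∀ (R : ℕ) (s : ℤ → ℤ) (z : ℕ) (A δ : ℝ), n₁ ≤ R → 1 ≤ z → R / 2 + z ≤ R → 0 ≤ A →
      (∀ y : ℤ, |(y : ℝ) - R / 2| ≤ C₁ * wd μ R → 0 ≤ y → y + z ≤ R →
        (law μ).real {η | A < X μ 0 (shr s η) 0 R (y + z) - X μ 0 η 0 R y} ≤ δ) →
      EE μ R ≤ C₁ * (wd μ R / z + 1) * (A + K * ((R : ℝ) + 1) ^ 2 * Real.sqrt δ) := by
  obtain ⟨K, hK, hst⟩ := e_steps (μ := μ) h.em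
  have hC1 := h.C1
  have hv0 := vA_tendsto (μ := μ) h.em h.nd (A := 1) zero_le_one
  have hv : ∀ᶠ n : ℕ in atTop, vA μ 1 n < 1 / (4 * (C + 4)) := hv0.eventually (eventually_lt_nhds (by positivity))
  have hw : ∀ᶠ n : ℕ in atTop, 4 ≤ wd μ n := (wd_tendsto h).eventually_ge_atTop 4
  have hJ := vA_eq (μ := μ) h.em h.nd (A := C + 1) (by linarith)
  obtain ⟨n₁, hn₁⟩ := eventually_atTop.1 ((hv.and hw).and (hJ.and (eventually_ge_atTop (max n₀ 1))))
  refine ⟨C + 4, K, n₁, by linarith, hK, fun R s z A δ hR hz hz4 hA hb => ?_⟩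
  obtain ⟨⟨hv1, hw1⟩, hJ1, hRm⟩ := hn₁ R hR
  have hR0 : n₀ ≤ R := (le_max_left _ _).trans hRm
  have hR1 : 1 ≤ R := (le_max_right _ _).trans hRm
  have hRR : (0 : ℝ) < R := by exact_mod_cast hR1
  have hzR : (0 : ℝ) < z := by exact_mod_cast hz
  have hEE := one_le_EE (μ := μ) R
  have hwR : (C + 4) * wd μ R ≤ R / 4 := by
    unfold wd
    rw [lt_div_iff₀ (by positivity)] at hv1
    nlinarith
  -- the start and the number of steps
  obtain ⟨y0, hy0⟩ : ∃ y0 : ℤ, y0 = (R : ℤ) / 2 := ⟨_, rfl⟩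
  have hy1 : |(y0 : ℝ) - R / 2| ≤ 1 / 2 := by
    have h1 : 2 * y0 ≤ R := by omega
    have h2 : (R : ℤ) ≤ 2 * y0 + 1 := by omega
    have h1' : (2 : ℝ) * y0 ≤ R := by exact_mod_cast h1
    have h2' : (R : ℝ) ≤ 2 * y0 + 1 := by exact_mod_cast h2
    rw [abs_le]
    constructor <;> linarith
  obtain ⟨k, hk⟩ : ∃ k : ℕ, k = ⌈((C + 1) * wd μ R + 1) / z⌉₊ := ⟨_, rfl⟩
  have hk1 : (C + 1) * wd μ R + 1 ≤ k * z := by
    have := Nat.le_ceil (((C + 1) * wd μ R + 1) / z)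
    rw [← hk, div_le_iff₀ hzR] at this
    exact this
  have hk2 : (k : ℝ) < ((C + 1) * wd μ R + 1) / z + 1 := by
    rw [hk]
    exact Nat.ceil_lt_add_one (by positivity)
  have hk3 : (k : ℝ) * z < (C + 1) * wd μ R + 1 + z := by
    have := mul_lt_mul_of_pos_right hk2 hzR
    rw [add_mul, div_mul_cancel₀ _ hzR.ne', one_mul] at this
    exact this
  obtain ⟨hya, hyb⟩ := abs_le.1 hy1
  have hy00 : 0 ≤ y0 := by omega
  -- the starts of the chain stay in the cone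
  have hcone : ∀ x : ℝ, 0 ≤ x → x + z ≤ k * z → |(y0 : ℝ) + x - R / 2| ≤ (C + 4) * wd μ R := by
    intro x hx0 hx1
    rw [abs_le]
    constructor
    · nlinarith
    · nlinarith
  have hyf : y0 + (k : ℤ) * z ≤ R := by
    rcases le_or_gt ((z : ℝ)) ((C + 1) * wd μ R + 1) with hzs | hzs
    · have h2 : (y0 : ℝ) + k * z ≤ R := by nlinarith
      exact_mod_cast h2
    · have h2 : k = 1 := by
        rw [hk]
        refine le_antisymm (Nat.ceil_le.2 ?_) (Nat.one_le_ceil_iff.2 (by positivity))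
        rw [Nat.cast_one, div_le_one hzR]
        exact hzs.le
      rw [h2]
      omega
  have hstep := hst R s y0 z A δ k hy00 hyf hA (by
    intro i hi
    have hik : (i : ℝ) + 1 ≤ k := by exact_mod_cast hi
    have hi0 : (0 : ℝ) ≤ i := Nat.cast_nonneg i
    refine hb _ ?_ ?_ ?_
    · push_cast
      exact hcone (i * z) (by positivity) (by nlinarith)
    · positivity
    · have h1 : (y0 : ℤ) + i * z + z ≤ y0 + k * z := by
        have h2 : ((i : ℤ) + 1) * z ≤ k * z := mul_le_mul_of_nonneg_right (by exact_mod_cast hi) (by positivity)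
        linarith
      exact h1.trans hyf)
  -- the centre
  have hcen : e μ 0 R y0 ≤ C * EE μ R := by
    have h1 := h.inn R hR0 R y0 (by omega) hy00 (by omega) (by
      have : 0 ≤ c * vA μ 1 R * R := by
        have := vA_nonneg (μ := μ) h.em zero_le_one R
        have := h.c0
        positivity
      linarith)
    refine le_trans ?_ h1
    unfold e ep
    refine integral_mono ((Sub_X 0 hy00 (by omega)).integrable h.em)
      (((Sub_X 0 hy00 (by omega)).max (Sub.const 0)).integrable h.em) fun η => le_max_left _ _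
  -- the far end
  have hfar : (C + 1) * EE μ R ≤ e μ 0 R (y0 + k * z) := by
    have h1 := J_le_e (μ := μ) h.em (n := R) (y := y0 + k * z) hR1 (by positivity) hyf
    refine le_trans ?_ h1
    rw [← hJ1]
    refine mul_le_mul_of_nonneg_left ?_ hRR.le
    have h2 := vA_scale (μ := μ) h.em (A := 1) (B := C + 1) one_pos (by linarith) R
    rw [div_one] at h2
    refine J_mono' h.em (vA_nonneg h.em (by linarith) R) (h2.trans ?_) ?_
    · rw [le_div_iff₀ hRR]
      push_cast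
      have e1 : (C + 1) * vA μ 1 R * R = (C + 1) * wd μ R := by
        unfold wd
        ring
      rw [e1]
      linarith
    · rw [div_le_iff₀ hRR]
      have h3 : ((y0 + k * z : ℤ) : ℝ) ≤ R := by exact_mod_cast hyf
      linarith
  have hB : 0 ≤ A + K * ((R : ℝ) + 1) ^ 2 * Real.sqrt δ := by positivity
  have hkk : (k : ℝ) ≤ (C + 4) * (wd μ R / z + 1) := by
    have h1 : 0 ≤ wd μ R / z := by positivity
    have h2 : ((C + 1) * wd μ R + 1) / z ≤ (C + 2) * (wd μ R / z) := by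
      rw [← mul_div_assoc]
      refine div_le_div_of_nonneg_right ?_ hzR.le
      nlinarith
    nlinarith
  calc EE μ R ≤ k * (A + K * ((R : ℝ) + 1) ^ 2 * Real.sqrt δ) := by linarith
    _ ≤ (C + 4) * (wd μ R / z + 1) * (A + K * ((R : ℝ) + 1) ^ 2 * Real.sqrt δ) := mul_le_mul_of_nonneg_right hkk hB

end

end Pool.Agent.W_7d29a1_Z3
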