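import Pool.Agent.W_7d29a1_Z.Defs
import Pool.Agent.W_7d29a1_Z3.Er3

/-!
STORM Z, leaf Eb: step (E) in the names of Z0. (helper3)
-/

namespace Pool.Agent.W_7d29a1_Z3

open MeasureTheory ProbabilityTheory Filter Topology
open Pool.Agent.W_7d29a1_F Pool.Agent.W_7d29a1_h4g Pool.Agent.W_7d29a1_G Pool.Agent.W_7d29a1_L
open Pool.Agent.W_7d29a1_SR (In wd wd_tendsto)
open Pool.Agent.W_7d29a1_Z (sv fk pat Core Rsp)

noncomputable section

variable {μ : Measure ℝ}

/-- The total jump of the pattern with the amplitude `j`. -/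
theorem sv_pat {R : ℕ} {I : Finset ℕ} (hI : I ⊆ Finset.range R) (j : ℤ) :
    sv (pat R 0 I fun _ => j) 0 R = j * I.card := by
  unfold sv
  have h1 : ∀ k ∈ Finset.Ico 0 R, pat R 0 I (fun _ => j) k = if k ∈ I then j else 0 := by
    intro k hk
    rw [Finset.mem_Ico] at hk
    unfold pat
    have h2 : k % (2 * R) = k := Nat.mod_eq_of_lt (by omega)
    simp [h2]
  rw [Finset.sum_congr rfl h1, ← Finset.sum_filter, Finset.sum_const, nsmul_eq_mul]
  have h3 : (Finset.Ico 0 R).filter (fun k => k ∈ I) = I := by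
    ext k
    rw [Finset.mem_filter, Finset.mem_Ico]
    constructor
    · exact fun h => h.2
    · intro h
      have := Finset.mem_range.1 (hI h)
      exact ⟨⟨by omega, this⟩, h⟩
  rw [h3]
  ring

theorem core_range (R : ℕ) : Core R ⊆ Finset.range R := by
  intro k hk
  unfold Core at hk
  rw [Finset.mem_Ico] at hk
  rw [Finset.mem_range]
  omega

theorem shr_eq (a : ℕ) (v : ℕ → ℤ) (η : Env) :
    Pool.Agent.W_7d29a1_Z.shr a v η = shr (fun i => sv v a i.toNat) η := rfl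

/-- **Leaf Eb.** -/
theorem eb [IsProbabilityMeasure μ] {c C : ℝ} {n₀ : ℕ} (h : In μ c C n₀) :
    ∃ (C₁ : ℝ) (n₁ : ℕ), 1 ≤ C₁ ∧ ∀ (R : ℕ) (I : Finset ℕ) (w A p : ℝ), n₁ ≤ R → I ⊆ Core R → 1 ≤ I.card →
      (I.card : ℝ) ≤ wd μ R → C₁ * wd μ R ≤ w → 0 ≤ A → 0 ≤ p → Rsp μ R I 1 w A p →
      EE μ R ≤ C₁ * (wd μ R / I.card) * (A + C₁ * ((R : ℝ) + 1) ^ 2 * Real.sqrt p) := by
  obtain ⟨C₁, K, n₁, hC₁, hK, hmain⟩ := er_ineq (μ := μ) h
  obtain ⟨n₂, hn₂⟩ := eventually_atTop.1 ((wd_tendsto h).eventually_ge_atTop 1)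
  refine ⟨max C₁ K, max n₁ n₂, hC₁.trans (le_max_left _ _), fun R I w A p hR hI hc hcw hw hA hp hRsp => ?_⟩
  have hwd1 : 1 ≤ wd μ R := hn₂ R ((le_max_right _ _).trans hR)
  have hsv := sv_pat (hI.trans (core_range R)) 1
  rw [one_mul] at hsv
  have h1 := hmain R (fun i => sv (pat R 0 I fun _ => 1) 0 i.toNat) I.card A p ((le_max_left _ _).trans hR) hc hcw hA (by
    intro y hy1 hy2 hy0 hyR
    have hsub : {η : Env | A < X μ 0 (shr (fun i => sv (pat R 0 I fun _ => 1) 0 i.toNat) η) 0 R (y + I.card) - X μ 0 η 0 R y} ⊆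
        {η : Env | ∃ u u' : ℕ, 4 * u ≤ R ∧ 3 * R ≤ 4 * u' ∧ u' ≤ R ∧ ∃ y : ℤ, |2 * (y : ℝ) - ((u' : ℝ) - u)| ≤ 2 * w ∧
          A < |fk μ (pat R 0 I fun _ => 1) η u u' 0 y - fk μ 0 η u u' 0 y|} := by
      intro η hη
      have hη' : A < X μ 0 (shr (fun i => sv (pat R 0 I fun _ => 1) 0 i.toNat) η) 0 R (y + I.card) - X μ 0 η 0 R y := hη
      refine ⟨0, R, by omega, by omega, le_rfl, y, ?_, ?_⟩
      · have h2 : |2 * (y : ℝ) - (((R : ℕ) : ℝ) - ((0 : ℕ) : ℝ))| = 2 * |(y : ℝ) - R / 2| := by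
          rw [← abs_two, ← abs_mul, abs_two]
          congr 1
          push_cast
          ring
        rw [h2]
        have h3 : C₁ * wd μ R ≤ max C₁ K * wd μ R := mul_le_mul_of_nonneg_right (le_max_left _ _) (by linarith)
        linarith
      · have e1 : fk μ (pat R 0 I fun _ => 1) η 0 R 0 y =
            -X μ 0 (shr (fun i => sv (pat R 0 I fun _ => 1) 0 i.toNat) η) 0 R (y + I.card) := by
          unfold fk X
          rw [hsv, shr_eq, neg_neg, Nat.sub_zero, sub_zero]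
          rfl
        have e2 : fk μ 0 η 0 R 0 y = -X μ 0 η 0 R y := by
          unfold fk X
          have e3 : Pool.Agent.W_7d29a1_Z.shr 0 0 η = η := by
            funext q
            simp [Pool.Agent.W_7d29a1_Z.shr, sv]
          have e4 : sv 0 0 R = 0 := by simp [sv]
          rw [e3, e4, neg_neg, Nat.sub_zero, sub_zero, add_zero]
          rfl
        rw [e1, e2]
        refine lt_of_lt_of_le hη' ?_
        have := neg_le_abs (-X μ 0 (shr (fun i => sv (pat R 0 I fun _ => 1) 0 i.toNat) η) 0 R (y + I.card) - -X μ 0 η 0 R y)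
        linarith
    have h2 := (measure_mono hsub).trans hRsp
    rw [measureReal_def]
    exact ENNReal.toReal_le_of_le_ofReal hp h2)
  have hs := Real.sqrt_nonneg p
  have hq : 0 ≤ wd μ R / I.card := by positivity
  have hR1 : 0 ≤ ((R : ℝ) + 1) ^ 2 := by positivity
  have h5 : A + K * ((R : ℝ) + 1) ^ 2 * Real.sqrt p ≤ A + max C₁ K * ((R : ℝ) + 1) ^ 2 * Real.sqrt p := by
    have := mul_le_mul_of_nonneg_right (mul_le_mul_of_nonneg_right (le_max_right C₁ K) hR1) hs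
    linarith
  have h6 : 0 ≤ A + max C₁ K * ((R : ℝ) + 1) ^ 2 * Real.sqrt p := by
    have : 0 ≤ max C₁ K := by positivity
    positivity
  calc EE μ R ≤ C₁ * (wd μ R / I.card) * (A + K * ((R : ℝ) + 1) ^ 2 * Real.sqrt p) := h1
    _ ≤ C₁ * (wd μ R / I.card) * (A + max C₁ K * ((R : ℝ) + 1) ^ 2 * Real.sqrt p) :=
        mul_le_mul_of_nonneg_left h5 (by positivity)
    _ ≤ max C₁ K * (wd μ R / I.card) * (A + max C₁ K * ((R : ℝ) + 1) ^ 2 * Real.sqrt p) :=
        mul_le_mul_of_nonneg_right (mul_le_mul_of_nonneg_right (le_max_left _ _) hq) h6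

theorem card_core {R : ℕ} {I : Finset ℕ} (hI : I ⊆ Core R) : R / 2 + I.card ≤ R := by
  have h1 := Finset.card_le_card hI
  unfold Core at h1
  rw [Nat.card_Ico] at h1
  omega

/-- **Leaf Eb**, all pattern sizes. -/
theorem eb2 [IsProbabilityMeasure μ] {c C : ℝ} {n₀ : ℕ} (h : In μ c C n₀) :
    ∃ (C₁ : ℝ) (n₁ : ℕ), 1 ≤ C₁ ∧ ∀ (R : ℕ) (I : Finset ℕ) (w A p : ℝ), n₁ ≤ R → I ⊆ Core R → 1 ≤ I.card →
      C₁ * wd μ R ≤ w → 0 ≤ A → 0 ≤ p → Rsp μ R I 1 w A p →
      EE μ R ≤ C₁ * (wd μ R / I.card + 1) * (A + C₁ * ((R : ℝ) + 1) ^ 2 * Real.sqrt p) := by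
  obtain ⟨C₁, K, n₁, hC₁, hK, hmain⟩ := er_ineq2 (μ := μ) h
  obtain ⟨n₂, hn₂⟩ := eventually_atTop.1 ((wd_tendsto h).eventually_ge_atTop 1)
  refine ⟨max C₁ K, max n₁ n₂, hC₁.trans (le_max_left _ _), fun R I w A p hR hI hc hw hA hp hRsp => ?_⟩
  have hwd1 : 1 ≤ wd μ R := hn₂ R ((le_max_right _ _).trans hR)
  have hsv := sv_pat (hI.trans (core_range R)) 1
  rw [one_mul] at hsv
  have h1 := hmain R (fun i => sv (pat R 0 I fun _ => 1) 0 i.toNat) I.card A p ((le_max_left _ _).trans hR) hc (card_core hI) hA (by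
    intro y hy1 hy0 hyR
    have hsub : {η : Env | A < X μ 0 (shr (fun i => sv (pat R 0 I fun _ => 1) 0 i.toNat) η) 0 R (y + I.card) - X μ 0 η 0 R y} ⊆
        {η : Env | ∃ u u' : ℕ, 4 * u ≤ R ∧ 3 * R ≤ 4 * u' ∧ u' ≤ R ∧ ∃ y : ℤ, |2 * (y : ℝ) - ((u' : ℝ) - u)| ≤ 2 * w ∧
          A < |fk μ (pat R 0 I fun _ => 1) η u u' 0 y - fk μ 0 η u u' 0 y|} := by
      intro η hη
      have hη' : A < X μ 0 (shr (fun i => sv (pat R 0 I fun _ => 1) 0 i.toNat) η) 0 R (y + I.card) - X μ 0 η 0 R y := hη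
      refine ⟨0, R, by omega, by omega, le_rfl, y, ?_, ?_⟩
      · have h2 : |2 * (y : ℝ) - (((R : ℕ) : ℝ) - ((0 : ℕ) : ℝ))| = 2 * |(y : ℝ) - R / 2| := by
          rw [← abs_two, ← abs_mul, abs_two]
          congr 1
          push_cast
          ring
        rw [h2]
        have h3 : C₁ * wd μ R ≤ max C₁ K * wd μ R := mul_le_mul_of_nonneg_right (le_max_left _ _) (by linarith)
        linarith
      · have e1 : fk μ (pat R 0 I fun _ => 1) η 0 R 0 y =
            -X μ 0 (shr (fun i => sv (pat R 0 I fun _ => 1) 0 i.toNat) η) 0 R (y + I.card) := by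
          unfold fk X
          rw [hsv, shr_eq, neg_neg, Nat.sub_zero, sub_zero]
          rfl
        have e2 : fk μ 0 η 0 R 0 y = -X μ 0 η 0 R y := by
          unfold fk X
          have e3 : Pool.Agent.W_7d29a1_Z.shr 0 0 η = η := by
            funext q
            simp [Pool.Agent.W_7d29a1_Z.shr, sv]
          have e4 : sv 0 0 R = 0 := by simp [sv]
          rw [e3, e4, neg_neg, Nat.sub_zero, sub_zero, add_zero]
          rfl
        rw [e1, e2]
        refine lt_of_lt_of_le hη' ?_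
        have := neg_le_abs (-X μ 0 (shr (fun i => sv (pat R 0 I fun _ => 1) 0 i.toNat) η) 0 R (y + I.card) - -X μ 0 η 0 R y)
        linarith
    have h2 := (measure_mono hsub).trans hRsp
    rw [measureReal_def]
    exact ENNReal.toReal_le_of_le_ofReal hp h2)
  have hs := Real.sqrt_nonneg p
  have hq : 0 ≤ wd μ R / I.card + 1 := by positivity
  have hR1 : 0 ≤ ((R : ℝ) + 1) ^ 2 := by positivity
  have h5 : A + K * ((R : ℝ) + 1) ^ 2 * Real.sqrt p ≤ A + max C₁ K * ((R : ℝ) + 1) ^ 2 * Real.sqrt p := by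
    have := mul_le_mul_of_nonneg_right (mul_le_mul_of_nonneg_right (le_max_right C₁ K) hR1) hs
    linarith
  have h6 : 0 ≤ A + max C₁ K * ((R : ℝ) + 1) ^ 2 * Real.sqrt p := by
    have : 0 ≤ max C₁ K := by positivity
    positivity
  calc EE μ R ≤ C₁ * (wd μ R / I.card + 1) * (A + K * ((R : ℝ) + 1) ^ 2 * Real.sqrt p) := h1
    _ ≤ C₁ * (wd μ R / I.card + 1) * (A + max C₁ K * ((R : ℝ) + 1) ^ 2 * Real.sqrt p) :=
        mul_le_mul_of_nonneg_left h5 (by positivity)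
    _ ≤ max C₁ K * (wd μ R / I.card + 1) * (A + max C₁ K * ((R : ℝ) + 1) ^ 2 * Real.sqrt p) :=
        mul_le_mul_of_nonneg_right (mul_le_mul_of_nonneg_right (le_max_left _ _) hq) h6

end

end Pool.Agent.W_7d29a1_Z3
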