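import Pool.Agent.W_7d29a1_Z.Step81b
import Pool.Agent.W_7d29a1_Z3.Eb3

/-!
STORM Z: the energy scale is bounded through the patterns: `EWP (wd μ) (EE μ) (PSg μ)`, from the TOP inequality (`eb2`) and the strict
Newman - Piza inequality. (helper3; the algebra follows `Z10/EwpOf` of helper10)
-/

namespace Pool.Agent.W_7d29a1_Z3

open MeasureTheory ProbabilityTheory Filter Topology
open Pool.Agent.W_7d29a1_G (EE one_le_EE)
open Pool.Agent.W_7d29a1_SR (In wd)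
open Pool.Agent.W_7d29a1_Z10 (EWP)
open Pool.Agent.W_7d29a1_Z (PSg Core Rsp)
open W_7d29a1_Z.Step81 (PQ G81 psg_eq)

/-- TOP with the cone exponent `δ` as a parameter. -/
def TopQ (G : ℕ → ℕ → ℝ → ℝ → ℝ → Prop) (w E : ℕ → ℝ) : Prop :=
  ∃ K : ℝ, 0 < K ∧ ∀ δ : ℝ, 0 < δ → ∀ᶠ n : ℕ in atTop, ∀ z : ℕ, 1 ≤ z → ∀ A p : ℝ, 1 ≤ A → 0 ≤ p → G n z δ A p →
    E n ≤ K * (w n / z + 1) * (A + (n : ℝ) ^ K * Real.sqrt p)

/-- The failure probability beats every power. -/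
theorem pow_sqrt_exp_le {K c : ℝ} (hK : 0 < K) (hc : 0 < c) :
    ∀ᶠ n : ℕ in atTop, (n : ℝ) ^ K * Real.sqrt (Real.exp (-(n : ℝ) ^ c)) ≤ 1 := by
  have h1 := (isLittleO_log_rpow_atTop hc).bound (show (0 : ℝ) < 1 / (2 * K) by positivity)
  have h2 := tendsto_natCast_atTop_atTop (R := ℝ) |>.eventually h1
  filter_upwards [h2, eventually_ge_atTop 1] with n hn hn1
  have hn1' : (1 : ℝ) ≤ n := by exact_mod_cast hn1
  have hn0 : (0 : ℝ) < n := by linarith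
  rw [Real.norm_eq_abs, Real.norm_eq_abs, abs_of_nonneg (Real.log_nonneg hn1'),
    abs_of_nonneg (Real.rpow_nonneg hn0.le _)] at hn
  have h3 : Real.sqrt (Real.exp (-(n : ℝ) ^ c)) = Real.exp (-(n : ℝ) ^ c / 2) := by
    rw [Real.sqrt_eq_rpow, ← Real.exp_mul]
    congr 1
    ring
  rw [h3, Real.rpow_def_of_pos hn0, ← Real.exp_add, Real.exp_le_one_iff]
  have h4 : Real.log n * K ≤ 1 / (2 * K) * (n : ℝ) ^ c * K := mul_le_mul_of_nonneg_right hn hK.le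
  have h5 : 1 / (2 * K) * (n : ℝ) ^ c * K = (n : ℝ) ^ c / 2 := by
    field_simp
  linarith

/-- `EWP` from TOP and the strict Newman - Piza inequality. -/
theorem ewpQ {G : ℕ → ℕ → ℝ → ℝ → ℝ → Prop} {w E : ℕ → ℝ} (hw : ∀ n, 0 ≤ w n) (hE : ∀ n, 0 ≤ E n)
    (hT : TopQ G w E) {c : ℝ} (hc : 0 < c)
    (hNP : ∀ᶠ n : ℕ in atTop, (n : ℝ) ^ (1 + c) ≤ w n * E n ^ 2) :
    EWP w E (PQ G) := by
  obtain ⟨K, hK, hTop⟩ := hT
  intro σ hσ hσ4 hP ε hε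
  obtain ⟨e, he0, he1, he2⟩ : ∃ e : ℝ, 0 < e ∧ 4 * e ≤ ε ∧ 4 * e ≤ c :=
    ⟨min ε c / 4, by positivity, by linarith [min_le_left ε c], by linarith [min_le_right ε c]⟩
  have ht1 : ∀ {a : ℝ}, 0 < a → Tendsto (fun n : ℕ => (n : ℝ) ^ a) atTop atTop := fun ha =>
    (tendsto_rpow_atTop ha).comp tendsto_natCast_atTop_atTop
  obtain ⟨δ, c₂, hδ, hc₂, t₀, hPt⟩ := hP e he0
  filter_upwards [eventually_ge_atTop t₀, hTop δ hδ, hNP, eventually_ge_atTop 1,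
    (ht1 he0).eventually_ge_atTop (4 * K), (ht1 (show 0 < 1 + c - 4 * σ - e by linarith)).eventually_gt_atTop
      ((4 * K) ^ 2), pow_sqrt_exp_le hK hc₂] with n h1 h2 h3 h4 h5 h6 hsq
  obtain ⟨z, hz2, hz3, hG⟩ := hPt n h1
  have hn1 : (1 : ℝ) ≤ n := by exact_mod_cast h4
  have hn0 : (0 : ℝ) < n := by linarith
  have hz1 : 1 ≤ z := by
    have h7 : (0 : ℝ) < z := lt_of_lt_of_le (Real.rpow_pos_of_pos hn0 _) hz2
    have h8 : 0 < z := by exact_mod_cast h7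
    exact h8
  have hA1 : (1 : ℝ) ≤ (n : ℝ) ^ (σ + e) := Real.one_le_rpow hn1 (by linarith)
  have hE1 := h2 z hz1 _ _ hA1 (Real.exp_pos _).le hG
  have hzr : (1 : ℝ) ≤ z := by exact_mod_cast hz1
  have hz0 : (0 : ℝ) < z := by linarith
  have hwz : w n / z ≤ w n * (n : ℝ) ^ (-(2 * σ - e)) := by
    rw [div_le_iff₀ hz0]
    have h7 : (1 : ℝ) ≤ (n : ℝ) ^ (-(2 * σ - e)) * z := by
      calc (1 : ℝ) = (n : ℝ) ^ (-(2 * σ - e)) * (n : ℝ) ^ (2 * σ - e) := by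
            rw [← Real.rpow_add hn0, neg_add_cancel, Real.rpow_zero]
        _ ≤ _ := mul_le_mul_of_nonneg_left hz2 (Real.rpow_nonneg hn0.le _)
    calc w n = w n * 1 := (mul_one _).symm
      _ ≤ w n * ((n : ℝ) ^ (-(2 * σ - e)) * z) := mul_le_mul_of_nonneg_left h7 (hw n)
      _ = _ := by ring
  have hE2 : E n ≤ 2 * K * (w n * (n : ℝ) ^ (-(2 * σ - e)) + 1) * (n : ℝ) ^ (σ + e) := by
    have h8 : 0 ≤ w n / z := div_nonneg (hw n) hz0.le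
    calc E n ≤ K * (w n / z + 1) * ((n : ℝ) ^ (σ + e) + (n : ℝ) ^ K * Real.sqrt (Real.exp (-(n : ℝ) ^ c₂))) := hE1
      _ ≤ K * (w n * (n : ℝ) ^ (-(2 * σ - e)) + 1) * (2 * (n : ℝ) ^ (σ + e)) :=
          mul_le_mul (mul_le_mul_of_nonneg_left (by linarith) hK.le) (by linarith) (by positivity)
            (mul_nonneg hK.le (by linarith))
      _ = _ := by ring
  -- `w n` is at least the size of the pattern
  have hbig : 1 ≤ w n * (n : ℝ) ^ (-(2 * σ - e)) := by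
    by_contra hlt
    push Not at hlt
    have hp1 : 0 < (n : ℝ) ^ (σ + e) := Real.rpow_pos_of_pos hn0 _
    have hE3 : E n ≤ 4 * K * (n : ℝ) ^ (σ + e) := by
      refine hE2.trans ?_
      have : 2 * K * (w n * (n : ℝ) ^ (-(2 * σ - e)) + 1) ≤ 4 * K := by nlinarith
      exact mul_le_mul_of_nonneg_right this hp1.le
    have hw2 : w n ≤ (n : ℝ) ^ (2 * σ - e) := by
      have h9 : (n : ℝ) ^ (-(2 * σ - e)) * (n : ℝ) ^ (2 * σ - e) = 1 := by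
        rw [← Real.rpow_add hn0, neg_add_cancel, Real.rpow_zero]
      have h10 : 0 < (n : ℝ) ^ (2 * σ - e) := Real.rpow_pos_of_pos hn0 _
      calc w n = w n * ((n : ℝ) ^ (-(2 * σ - e)) * (n : ℝ) ^ (2 * σ - e)) := by rw [h9, mul_one]
        _ = (w n * (n : ℝ) ^ (-(2 * σ - e))) * (n : ℝ) ^ (2 * σ - e) := by ring
        _ ≤ 1 * (n : ℝ) ^ (2 * σ - e) := mul_le_mul_of_nonneg_right hlt.le h10.le
        _ = _ := one_mul _
    have h11 : w n * E n ^ 2 ≤ (4 * K) ^ 2 * (n : ℝ) ^ (4 * σ + e) := by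
      calc w n * E n ^ 2 ≤ (n : ℝ) ^ (2 * σ - e) * (4 * K * (n : ℝ) ^ (σ + e)) ^ 2 :=
            mul_le_mul hw2 (pow_le_pow_left₀ (hE n) hE3 2) (sq_nonneg _) (Real.rpow_nonneg hn0.le _)
        _ = (4 * K) ^ 2 * ((n : ℝ) ^ (2 * σ - e) * ((n : ℝ) ^ (σ + e) * (n : ℝ) ^ (σ + e))) := by ring
        _ = _ := by rw [← Real.rpow_add hn0, ← Real.rpow_add hn0]; congr 2; ring
    have h12 : (n : ℝ) ^ (1 + c) = (n : ℝ) ^ (1 + c - 4 * σ - e) * (n : ℝ) ^ (4 * σ + e) := by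
      rw [← Real.rpow_add hn0]; congr 1; ring
    have h13 : 0 < (n : ℝ) ^ (4 * σ + e) := Real.rpow_pos_of_pos hn0 _
    rw [h12] at h3
    exact absurd (le_of_mul_le_mul_right (h3.trans h11) h13) (not_le.2 h6)
  have hp : 0 ≤ (n : ℝ) ^ (σ + e) := Real.rpow_nonneg hn0.le _
  have hfin : E n ≤ (n : ℝ) ^ ε * (w n * (n : ℝ) ^ (-σ)) := by
    calc E n ≤ 2 * K * (w n * (n : ℝ) ^ (-(2 * σ - e)) + 1) * (n : ℝ) ^ (σ + e) := hE2
      _ ≤ 2 * K * (2 * (w n * (n : ℝ) ^ (-(2 * σ - e)))) * (n : ℝ) ^ (σ + e) :=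
          mul_le_mul_of_nonneg_right (mul_le_mul_of_nonneg_left (by linarith) (by positivity)) hp
      _ = 4 * K * (w n * ((n : ℝ) ^ (-(2 * σ - e)) * (n : ℝ) ^ (σ + e))) := by ring
      _ = 4 * K * (w n * (n : ℝ) ^ (-σ + 2 * e)) := by
          rw [← Real.rpow_add hn0]; congr 3; ring
      _ ≤ (n : ℝ) ^ e * (w n * (n : ℝ) ^ (-σ + 2 * e)) :=
          mul_le_mul_of_nonneg_right h5 (mul_nonneg (hw n) (Real.rpow_nonneg hn0.le _))
      _ = w n * ((n : ℝ) ^ e * (n : ℝ) ^ (-σ + 2 * e)) := by ring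
      _ = w n * (n : ℝ) ^ (-σ + 3 * e) := by rw [← Real.rpow_add hn0]; congr 2; ring
      _ ≤ w n * ((n : ℝ) ^ ε * (n : ℝ) ^ (-σ)) := by
          refine mul_le_mul_of_nonneg_left ?_ (hw n)
          rw [← Real.rpow_add hn0]
          exact Real.rpow_le_rpow_of_exponent_le hn1 (by linarith)
      _ = _ := by ring
  refine hfin.trans (mul_le_mul_of_nonneg_left ?_ (Real.rpow_nonneg hn0.le _))
  have := Real.rpow_nonneg (hw n) (1 / 2 : ℝ)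
  linarith

variable {μ : Measure ℝ} [IsProbabilityMeasure μ] {c C : ℝ} {n₀ : ℕ}

theorem topQ_G81 (h : In μ c C n₀) : TopQ (G81 μ) (wd μ) (EE μ) := by
  obtain ⟨C₁, n₁, hC₁, hmain⟩ := eb2 (μ := μ) h
  refine ⟨4 * C₁ + 3, by linarith, fun δ hδ => ?_⟩
  have h1 : ∀ᶠ n : ℕ in atTop, C₁ ≤ (n : ℝ) ^ δ :=
    ((tendsto_rpow_atTop hδ).comp tendsto_natCast_atTop_atTop).eventually_ge_atTop C₁
  filter_upwards [h1, eventually_ge_atTop n₁, eventually_ge_atTop 2,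
    (Pool.Agent.W_7d29a1_SR.wd_tendsto h).eventually_ge_atTop 1, (tendsto_natCast_atTop_atTop (R := ℝ)).eventually_ge_atTop (4 * C₁)]
    with n hn hn1 hn2 hwd hnC z hz A p hA hp hG
  obtain ⟨I, hI, hIz, hR⟩ := hG
  have hn2' : (2 : ℝ) ≤ n := by exact_mod_cast hn2
  have h2 := hmain n I ((n : ℝ) ^ δ * wd μ n) A p hn1 hI (by rw [hIz]; exact hz)
    (mul_le_mul_of_nonneg_right hn (by linarith)) (by linarith) hp hR
  rw [hIz] at h2
  have hq : 0 ≤ wd μ n / z + 1 := by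
    have : 0 ≤ wd μ n / z := div_nonneg (by linarith) (Nat.cast_nonneg z)
    linarith
  have h3 : C₁ * ((n : ℝ) + 1) ^ 2 ≤ (n : ℝ) ^ (4 * C₁ + 3) := by
    have h4 : ((n : ℝ) + 1) ^ 2 ≤ 4 * (n : ℝ) ^ 2 := by nlinarith
    have h5 : C₁ * ((n : ℝ) + 1) ^ 2 ≤ (n : ℝ) ^ 3 := by
      calc C₁ * ((n : ℝ) + 1) ^ 2 ≤ C₁ * (4 * (n : ℝ) ^ 2) := mul_le_mul_of_nonneg_left h4 (by linarith)
        _ = 4 * C₁ * (n : ℝ) ^ 2 := by ring
        _ ≤ n * (n : ℝ) ^ 2 := mul_le_mul_of_nonneg_right hnC (by positivity)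
        _ = (n : ℝ) ^ 3 := by ring
    refine h5.trans ?_
    rw [← Real.rpow_natCast]
    refine Real.rpow_le_rpow_of_exponent_le (by linarith) ?_
    push_cast
    linarith
  have hs := Real.sqrt_nonneg p
  have h6 : A + C₁ * ((n : ℝ) + 1) ^ 2 * Real.sqrt p ≤ A + (n : ℝ) ^ (4 * C₁ + 3) * Real.sqrt p := by
    have := mul_le_mul_of_nonneg_right h3 hs
    linarith
  have h7 : 0 ≤ A + (n : ℝ) ^ (4 * C₁ + 3) * Real.sqrt p := by positivity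
  calc EE μ n ≤ C₁ * (wd μ n / z + 1) * (A + C₁ * ((n : ℝ) + 1) ^ 2 * Real.sqrt p) := h2
    _ ≤ C₁ * (wd μ n / z + 1) * (A + (n : ℝ) ^ (4 * C₁ + 3) * Real.sqrt p) :=
        mul_le_mul_of_nonneg_left h6 (mul_nonneg (by linarith) hq)
    _ ≤ (4 * C₁ + 3) * (wd μ n / z + 1) * (A + (n : ℝ) ^ (4 * C₁ + 3) * Real.sqrt p) :=
        mul_le_mul_of_nonneg_right (mul_le_mul_of_nonneg_right (by linarith) hq) h7

/-- **`EWP` for the patterns.** -/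
theorem ewp_PSg (h : In μ c C n₀) {k : ℝ} (hk : 0 < k)
    (hNP : ∀ᶠ n : ℕ in atTop, (n : ℝ) ^ (1 + k) ≤ wd μ n * EE μ n ^ 2) :
    EWP (wd μ) (EE μ) (PSg μ) := by
  rw [psg_eq]
  refine ewpQ (fun n => ?_) (fun n => ?_) (topQ_G81 h) hk hNP
  · exact mul_nonneg (Pool.Agent.W_7d29a1_G.vA_nonneg (μ := μ) h.em zero_le_one n) (Nat.cast_nonneg n)
  · exact zero_le_one.trans (one_le_EE (μ := μ) n)

end Pool.Agent.W_7d29a1_Z3
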